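import Pool.Agent.TH111.LOC_GAPa
import Pool.Agent.TH580.HL.Eq2
import Pool.Agent.TH580.HL.Conv2

set_option autoImplicit false

/-!
# Symmetric bodies which almost attain equality in Mahler's inequality: compactness (helper753)
-/

open MeasureTheory Set Filter
open scoped ENNReal Topology Matrix Pointwise

namespace Pool.Agent.R753.LPM

open H801NS H712MA.GB H739EQ
open Pool.Agent.TH111.LOC_GAP

variable {n : ℕ}

theorem sbody_NB {K : Set (Fin n → ℝ)} (h : SBody K) : NB K :=
  ⟨h.comp, h.conv, zero_mem_interior h⟩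

lemma sb_star {K : Set (Fin n → ℝ)} (h : SBody K) {x : Fin n → ℝ} (hx : x ∈ K) {s : ℝ}
    (hs : |s| ≤ 1) : s • x ∈ K := by
  have h0 : (0 : Fin n → ℝ) ∈ K := interior_subset (zero_mem_interior h)
  rcases le_total 0 s with h1 | h1
  · rw [abs_of_nonneg h1] at hs
    exact h.conv.smul_mem_of_zero_mem h0 hx ⟨h1, hs⟩
  · rw [abs_of_nonpos h1] at hs
    have h2 := h.conv.smul_mem_of_zero_mem h0 (h.symm x hx) (t := -s) ⟨by linarith, hs⟩
    rwa [smul_neg, neg_smul, neg_neg] at h2

/-- Auerbach's lemma -/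
theorem auerbach {K : Set (Fin n → ℝ)} (hK : SBody K) :
    ∃ e : (Fin n → ℝ) ≃ₗ[ℝ] (Fin n → ℝ), (∀ x : Fin n → ℝ, ∑ i, |x i| ≤ 1 → x ∈ e '' K) ∧
      ∀ x ∈ e '' K, ∀ i, |x i| ≤ 1 := by
  classical
  let M : (Fin n → Fin n → ℝ) → Matrix (Fin n) (Fin n) ℝ := fun v => Matrix.of fun i j => v j i
  have hMc : Continuous fun v => |(M v).det| := by
    refine Continuous.abs (Continuous.matrix_det ?_)
    exact continuous_matrix fun i j => by
      change Continuous fun v : Fin n → Fin n → ℝ => v j i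
      fun_prop
  have h0K : (0 : Fin n → ℝ) ∈ K := interior_subset (zero_mem_interior hK)
  have hcomp : IsCompact (Set.pi Set.univ fun _ : Fin n => K) :=
    isCompact_univ_pi fun _ => hK.comp
  obtain ⟨v, hvK, hvmax⟩ := hcomp.exists_isMaxOn ⟨fun _ => 0, fun _ _ => h0K⟩ hMc.continuousOn
  have hvK' : ∀ i, v i ∈ K := fun i => hvK i (Set.mem_univ i)
  have hmax : ∀ w : Fin n → Fin n → ℝ, (∀ i, w i ∈ K) → |(M w).det| ≤ |(M v).det| :=
    fun w hw => hvmax (a := w) (fun i _ => hw i)
  have hdet : (M v).det ≠ 0 := by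
    obtain ⟨r, hr, hb⟩ := Metric.mem_nhds_iff.1
      (mem_interior_iff_mem_nhds.1 (zero_mem_interior hK))
    have h1 := hmax (fun j => (r / 2) • Pi.single j (1 : ℝ)) (fun j => hb (by
      rw [mem_ball_zero_iff, norm_smul, Pi.norm_single, norm_one, mul_one,
        Real.norm_of_nonneg (by positivity)]
      linarith))
    have h2 : M (fun j => (r / 2) • Pi.single j (1 : ℝ)) =
        (r / 2) • (1 : Matrix (Fin n) (Fin n) ℝ) := by
      ext i j
      change (r / 2) * (Pi.single j (1 : ℝ) : Fin n → ℝ) i =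
        (r / 2) * (1 : Matrix (Fin n) (Fin n) ℝ) i j
      rw [Pi.single_apply, Matrix.one_apply]
    rw [h2, Matrix.det_smul, Matrix.det_one, mul_one, Fintype.card_fin] at h1
    intro h0
    rw [h0, abs_zero] at h1
    have h3 : 0 < |(r / 2) ^ n| := abs_pos.2 (by positivity)
    linarith
  let A : (Fin n → ℝ) →ₗ[ℝ] (Fin n → ℝ) := Matrix.toLin' (M v)
  have hA : LinearMap.det A ≠ 0 := by
    show LinearMap.det (Matrix.toLin' (M v)) ≠ 0
    rw [LinearMap.det_toLin']
    exact hdet
  let e : (Fin n → ℝ) ≃ₗ[ℝ] (Fin n → ℝ) := (LinearMap.equivOfDetNeZero A hA).symm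
  have he : ∀ x, e.symm x = (M v).mulVec x := fun x => rfl
  have hes : ∀ x, e.symm x = ∑ j, x j • v j := by
    intro x
    rw [he]
    ext i
    simp only [Matrix.mulVec, dotProduct, Finset.sum_apply, Pi.smul_apply, smul_eq_mul]
    refine Finset.sum_congr rfl fun j _ => ?_
    change v j i * x j = x j * v j i
    ring
  refine ⟨e, ?_, ?_⟩
  · intro x hx
    refine ⟨e.symm x, ?_, e.apply_symm_apply x⟩
    rw [hes]
    -- convex combination with the weights `|x j|`
    have h1 : ∑ j, x j • v j = ∑ j, |x j| • (SignType.sign (x j) : ℝ) • v j := by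
      refine Finset.sum_congr rfl fun j _ => ?_
      rw [smul_smul, abs_mul_sign]
    rw [h1]
    have h2 : ∀ j, (SignType.sign (x j) : ℝ) • v j ∈ K := by
      intro j
      apply sb_star hK (hvK' j)
      rcases lt_trichotomy (x j) 0 with h | h | h
      · simp [sign_neg h]
      · simp [h]
      · simp [sign_pos h]
    have h3 : ∑ j, |x j| • (SignType.sign (x j) : ℝ) • v j =
        ∑ j, |x j| • (SignType.sign (x j) : ℝ) • v j + (1 - ∑ j, |x j|) • (0 : Fin n → ℝ) := by
      rw [smul_zero, add_zero]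
    rw [h3]
    rcases (Finset.sum_nonneg fun (i : Fin n) _ => abs_nonneg (x i)).eq_or_lt with h4 | h4
    · have h5 : ∀ j, x j = 0 := by
        intro j
        have := (Finset.sum_eq_zero_iff_of_nonneg (fun (i : Fin n) _ => abs_nonneg (x i))).1
          h4.symm j (Finset.mem_univ j)
        exact abs_eq_zero.1 this
      simp [h5, h0K]
    · set s := ∑ j, |x j| with hs
      have h5 : ∑ j, (|x j| / s) • (SignType.sign (x j) : ℝ) • v j ∈ K := by
        apply hK.conv.sum_mem
        · intro i _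
          positivity
        · rw [← Finset.sum_div, div_self h4.ne']
        · intro i _
          exact h2 i
      have h6 : ∑ j, |x j| • (SignType.sign (x j) : ℝ) • v j =
          s • ∑ j, (|x j| / s) • (SignType.sign (x j) : ℝ) • v j := by
        rw [Finset.smul_sum]
        refine Finset.sum_congr rfl fun j _ => ?_
        rw [smul_smul s, mul_div_cancel₀ _ h4.ne']
      rw [smul_zero, add_zero, h6]
      exact sb_star hK h5 (by rw [abs_of_pos h4]; exact hx)
  · rintro _ ⟨x, hx, rfl⟩ i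
    have h1 : e x = ((M v).det)⁻¹ • (Matrix.cramer (M v) x) := by
      apply e.symm.injective
      rw [e.symm_apply_apply, he, Matrix.mulVec_smul, Matrix.mulVec_cramer, smul_smul,
        inv_mul_cancel₀ hdet, one_smul]
    rw [h1, Pi.smul_apply, smul_eq_mul, abs_mul, abs_inv, inv_mul_le_iff₀ (abs_pos.2 hdet),
      mul_one, Matrix.cramer_apply]
    have h2 : (M v).updateCol i x = M (Function.update v i x) := by
      ext i' j
      rw [Matrix.updateCol_apply]
      change _ = (Function.update v i x j) i'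
      by_cases hj : j = i
      · subst hj
        rw [if_pos rfl, Function.update_self]
      · rw [if_neg hj, Function.update_of_ne hj]
        rfl
    rw [h2]
    apply hmax
    intro j
    by_cases hj : j = i
    · subst hj
      rw [Function.update_self]
      exact hx
    · rw [Function.update_of_ne hj]
      exact hvK' j

/-- the selection theorem for symmetric bodies in Auerbach position -/
theorem compact_seq' {N : ℕ} (hN : 0 < N) (K : ℕ → Set (Fin N → ℝ)) (c : ℕ → ℝ)
    (hK : ∀ j, SBody (K j)) (hc : Tendsto c atTop (𝓝 0)) {C : ℝ} (hC0 : 0 < C)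
    (hlt : ∀ j, volume (K j) * volume (plr (K j)) ≤ ENNReal.ofReal (C * (1 + c j))) :
    ∃ (φ : ℕ → ℕ) (e : ℕ → (Fin N → ℝ) ≃ₗ[ℝ] (Fin N → ℝ))
      (H : Set (Fin N → ℝ)), StrictMono φ ∧ SBody H ∧
      volume H * volume (plr H) ≤ ENNReal.ofReal C ∧
      ∀ t : ℝ, 1 < t → ∀ᶠ j in atTop, e j '' K (φ j) ⊆ t • H ∧ H ⊆ t • (e j '' K (φ j)) := by
  choose e hin0 hout0 using fun j => auerbach (hK j)
  set L : ℕ → Set (Fin N → ℝ) := fun j => e j '' K j with hL
  have hLNB : ∀ j, NB (L j) := fun j => NB_image (e j) (sbody_NB (hK j))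
  have hLprod : ∀ j, volume (L j) * volume (pol (L j)) ≤ ENNReal.ofReal (C * (1 + c j)) :=
    fun j => by
      rw [hL, prod_image]
      exact hlt j
  have hN0 : (0 : ℝ) < N := by exact_mod_cast hN
  have hη : (0 : ℝ) < 1 / N := by positivity
  have hin : ∀ j, Metric.closedBall 0 (1 / (N : ℝ)) ⊆ L j := by
    intro j x hx
    apply hin0
    rw [mem_closedBall_zero_iff] at hx
    calc ∑ i, |x i| ≤ ∑ _i : Fin N, 1 / (N : ℝ) :=
          Finset.sum_le_sum fun i _ => (norm_le_pi_norm x i).trans hx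
      _ = 1 := by
        rw [Finset.sum_const, Finset.card_univ, Fintype.card_fin, nsmul_eq_mul]
        field_simp
  have hball : ∀ j, L j ⊆ Metric.closedBall 0 2 := by
    intro j x hx
    rw [mem_closedBall_zero_iff]
    refine (pi_norm_le_iff_of_nonneg (by norm_num)).2 fun i => ?_
    exact (hout0 j x hx i).trans (by norm_num)
  obtain ⟨φ, K0, hφ, hK0, hsel⟩ := selection L hη (by norm_num : (0 : ℝ) ≤ 2)
    (fun j => (hLNB j).comp) (fun j => (hLNB j).conv) hin hball
  -- the volume product of the limit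
  have hlim : ∀ t : ℝ, 1 < t →
      volume K0 * volume (pol K0) ≤ ENNReal.ofReal (t ^ N * t ^ N * C) := by
    intro t ht
    have ht0 : 0 < t := by linarith
    have h1 : ∀ᶠ j in atTop, volume K0 * volume (pol K0) ≤
        ENNReal.ofReal (t ^ N * t ^ N * (C * (1 + c (φ j)))) := by
      filter_upwards [hsel t ht] with j hj
      have h2 : volume K0 ≤ ENNReal.ofReal (t ^ N) * volume (L (φ j)) := by
        rw [← vol_smul ht0]
        exact measure_mono hj.2
      have h3 : volume (pol K0) ≤ ENNReal.ofReal (t ^ N) * volume (pol (L (φ j))) := by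
        rw [← vol_smul ht0]
        apply measure_mono
        have h4 := pol_anti hj.1
        rw [pol_smul ht0] at h4
        intro y hy
        have h5 : t⁻¹ • y ∈ pol (L (φ j)) := h4 (Set.smul_mem_smul_set hy)
        exact ⟨t⁻¹ • y, h5, by simp only; rw [smul_smul, mul_inv_cancel₀ ht0.ne', one_smul]⟩
      calc volume K0 * volume (pol K0) ≤ (ENNReal.ofReal (t ^ N) * volume (L (φ j))) *
            (ENNReal.ofReal (t ^ N) * volume (pol (L (φ j)))) := mul_le_mul' h2 h3
        _ = (ENNReal.ofReal (t ^ N) * ENNReal.ofReal (t ^ N)) *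
            (volume (L (φ j)) * volume (pol (L (φ j)))) := by ring
        _ ≤ (ENNReal.ofReal (t ^ N) * ENNReal.ofReal (t ^ N)) *
            ENNReal.ofReal (C * (1 + c (φ j))) :=
          mul_le_mul' le_rfl (hLprod (φ j))
        _ = _ := by
          rw [← ENNReal.ofReal_mul (by positivity), ← ENNReal.ofReal_mul (by positivity)]
    have h2 : Tendsto (fun j => ENNReal.ofReal
        (t ^ N * t ^ N * (C * (1 + c (φ j))))) atTop
        (𝓝 (ENNReal.ofReal (t ^ N * t ^ N * (C * (1 + 0))))) := by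
      apply ENNReal.tendsto_ofReal
      have h3 : Tendsto (fun j => c (φ j)) atTop (𝓝 0) := hc.comp hφ.tendsto_atTop
      exact ((h3.const_add 1).const_mul C).const_mul (t ^ N * t ^ N)
    have h3 := ge_of_tendsto h2 h1
    rwa [add_zero, mul_one] at h3
  have hcontN : Tendsto (fun t : ℝ => t ^ N * t ^ N) (𝓝[>] 1) (𝓝 (1 ^ N * 1 ^ N)) := by
    have h1 : Continuous fun t : ℝ => t ^ N * t ^ N := by fun_prop
    exact (h1.tendsto 1).mono_left nhdsWithin_le_nhds
  have hP : volume K0 * volume (pol K0) ≤ ENNReal.ofReal C := by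
    have h2 : Tendsto (fun t : ℝ => ENNReal.ofReal (t ^ N * t ^ N * C)) (𝓝[>] 1)
        (𝓝 (ENNReal.ofReal (1 ^ N * 1 ^ N * C))) :=
      ENNReal.tendsto_ofReal (hcontN.mul_const C)
    have h3 := ge_of_tendsto h2 (by
      filter_upwards [self_mem_nhdsWithin] with t ht
      exact hlim t ht)
    rwa [one_pow, mul_one, one_mul] at h3
  -- the limit is symmetric
  have hsymL : ∀ j, ∀ x ∈ L j, -x ∈ L j := by
    rintro j _ ⟨x, hx, rfl⟩
    exact ⟨-x, (hK j).symm x hx, map_neg (e j) x⟩
  have hsym : ∀ x ∈ K0, -x ∈ K0 := by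
    intro x hx
    have h1 : ∀ t : ℝ, 1 < t → (t * t)⁻¹ • (-x) ∈ K0 := by
      intro t ht
      have ht0 : 0 < t := by linarith
      obtain ⟨j, hj1, hj2⟩ := (hsel t ht).exists
      obtain ⟨y, hy, hyx⟩ := hj2 hx
      have h2 := hj1 (hsymL _ y hy)
      obtain ⟨z, hz, hzy⟩ := h2
      have h3 : (t * t)⁻¹ • (-x) = z := by
        have h4 : t • z = -y := hzy
        have h5 : t • y = x := hyx
        rw [← h5, ← smul_neg, ← h4, smul_smul, smul_smul]
        have : (t * t)⁻¹ * t * t = 1 := by field_simp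
        rw [this, one_smul]
      rw [h3]
      exact hz
    have h2 : Tendsto (fun t : ℝ => (t * t)⁻¹ • (-x)) (𝓝[>] 1) (𝓝 ((1 * 1 : ℝ)⁻¹ • (-x))) := by
      have h3 : ContinuousAt (fun t : ℝ => (t * t)⁻¹ • (-x)) 1 := by
        have h4 : ContinuousAt (fun t : ℝ => (t * t)⁻¹) 1 :=
          ContinuousAt.inv₀ (by fun_prop) (by norm_num)
        exact h4.smul (continuousAt_const (y := -x))
      exact h3.tendsto.mono_left nhdsWithin_le_nhds
    have h3 := hK0.comp.isClosed.mem_of_tendsto h2 (by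
      filter_upwards [self_mem_nhdsWithin] with t ht
      exact h1 t ht)
    simpa using h3
  exact ⟨φ, fun j => e (φ j), K0, hφ, ⟨hK0.comp, hK0.conv, ⟨0, hK0.zero⟩, hsym⟩, hP,
    fun t ht => hsel t ht⟩

/-- the selection theorem for symmetric bodies which almost attain equality -/
theorem compact_seq {m : ℕ} (K : ℕ → Set (Fin (m + 1) → ℝ)) (c : ℕ → ℝ) (hK : ∀ j, SBody (K j))
    (hc : Tendsto c atTop (𝓝 0)) (hlt : ∀ j, volume (K j) * volume (plr (K j)) ≤
      ENNReal.ofReal (4 ^ (m + 1) / (m + 1).factorial * (1 + c j))) :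
    ∃ (φ : ℕ → ℕ) (e : ℕ → (Fin (m + 1) → ℝ) ≃ₗ[ℝ] (Fin (m + 1) → ℝ))
      (H : Set (Fin (m + 1) → ℝ)), StrictMono φ ∧ Ext H ∧
      ∀ t : ℝ, 1 < t → ∀ᶠ j in atTop, e j '' K (φ j) ⊆ t • H ∧ H ⊆ t • (e j '' K (φ j)) := by
  obtain ⟨φ, e, H, h1, h2, h3, h4⟩ := compact_seq' m.succ_pos K c hK hc
    (C := 4 ^ (m + 1) / (m + 1).factorial) (by positivity) hlt
  exact ⟨φ, e, H, h1, ⟨h2, h3⟩, h4⟩

end Pool.Agent.R753.LPM
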